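import Pool.Agent.MP_66cee2_co.H1U.Kit

/-
Random centres: a partition of a cube into classes without unit distances.
-/

namespace Pool.Agent.MP_66cee2_co.H1U

open MeasureTheory Metric Finset
open scoped RealInnerProductSpace

variable {d : ℕ}

theorem sep1 {a w : EuclideanSpace ℝ (Fin d)} {s ρ : ℝ} (hs : 0 < s) (hρ : 27 / 16 ≤ ρ ^ 2)
    (ρ0 : 0 < ρ) (ha : ‖a‖ ≤ s / 2) (h : ρ * s < ‖w - (3 / 2 : ℝ) • a‖) :
    s * ‖w‖ < ‖w‖ ^ 2 - 2 * ⟪w, a⟫ := by
  by_contra hn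
  push Not at hn
  have e : ‖w - (3 / 2 : ℝ) • a‖ ^ 2 = ‖w‖ ^ 2 - 3 * ⟪w, a⟫ + 9 / 4 * ‖a‖ ^ 2 := by
    rw [norm_sub_sq_real, inner_smul_right, norm_smul, Real.norm_eq_abs, mul_pow, sq_abs]
    ring
  have h1 : (ρ * s) ^ 2 < ‖w - (3 / 2 : ℝ) • a‖ ^ 2 :=
    pow_lt_pow_left₀ h (by positivity) two_ne_zero
  have h2 : ‖a‖ ^ 2 ≤ (s / 2) ^ 2 := pow_le_pow_left₀ (norm_nonneg _) ha 2
  have h3 : 27 / 16 * s ^ 2 ≤ (ρ * s) ^ 2 := by
    rw [mul_pow]
    exact mul_le_mul_of_nonneg_right hρ (sq_nonneg s)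
  nlinarith [sq_nonneg (‖w‖ - 3 / 2 * s)]

theorem sep {x y c c' : EuclideanSpace ℝ (Fin d)} {s ρ : ℝ} (hs : 0 < s) (hρ : 27 / 16 ≤ ρ ^ 2)
    (ρ0 : 0 < ρ) (hx : ‖c - x‖ ≤ s / 2) (hy : ‖c' - y‖ ≤ s / 2)
    (h : ρ * s < ‖c' - (c + (3 / 2 : ℝ) • (x - c))‖)
    (h' : ρ * s < ‖c - (c' + (3 / 2 : ℝ) • (y - c'))‖) : s < ‖x - y‖ := by
  rw [← sub_sub] at h h'
  rw [norm_sub_rev] at hx hy
  have a1 := sep1 hs hρ ρ0 hx h
  have a2 := sep1 hs hρ ρ0 hy h'
  rw [norm_sub_rev c c'] at a2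
  have e : ‖c' - c‖ ^ 2 - ⟪c' - c, x - c⟫ - ⟪c - c', y - c'⟫ = ⟪c' - c, y - x⟫ := by
    rw [← real_inner_self_eq_norm_sq, ← neg_sub c' c, inner_neg_left, sub_neg_eq_add,
      ← inner_sub_right, ← inner_add_right]
    congr 1
    abel
  have a3 := real_inner_le_norm (c' - c) (y - x)
  rw [norm_sub_rev y x] at a3
  by_contra hn
  push Not at hn
  nlinarith [norm_nonneg (c' - c), mul_le_mul_of_nonneg_left hn (norm_nonneg (c' - c))]

/-- `c` is the chosen centre of `y`. -/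
def Ev {T : Finset (Fin d → ℤ)} (δ R : ℝ) (y : EuclideanSpace ℝ (Fin d)) (o : T → Bool) (c : T) :
    Prop :=
  o c = true ∧ ∀ c' : T, c' ≠ c →
    ‖pt δ c'.1 - (pt δ c.1 + (3 / 2 : ℝ) • (y - pt δ c.1))‖ ≤ R → o c' = false

theorem ev_sep {T : Finset (Fin d → ℤ)} {δ s ρ : ℝ} (hs : 0 < s) (hρ : 27 / 16 ≤ ρ ^ 2)
    (ρ0 : 0 < ρ) {x y : EuclideanSpace ℝ (Fin d)} {o : T → Bool} {c c' : T}
    (h : Ev δ (ρ * s) x o c) (h' : Ev δ (ρ * s) y o c') (hx : ‖pt δ c.1 - x‖ ≤ s / 2)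
    (hy : ‖pt δ c'.1 - y‖ ≤ s / 2) (hc : c ≠ c') : s < ‖x - y‖ :=
  sep hs hρ ρ0 hx hy (not_le.1 fun e => by simpa [h'.1] using h.2 c' hc.symm e)
    (not_le.1 fun e => by simpa [h.1] using h'.2 c hc e)

open Classical in
theorem prob {T : Finset (Fin d → ℤ)} {δ s ρ r : ℝ} (hδ : 0 < δ) (hs : 0 < s)
    (hρ : 27 / 16 ≤ ρ ^ 2) (ρ0 : 0 < ρ) (r0 : 0 < r) (hr : r + δ * d ≤ s / 2) :
    ∃ q : ℝ, 0 ≤ q ∧ q ≤ 1 ∧ ∀ y : EuclideanSpace ℝ (Fin d),
      (∀ c, ‖pt δ c - y‖ ≤ r + δ * d → c ∈ T) → (r / (ρ * s + δ * d)) ^ d / 4 ≤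
        ∑ o : T → Bool, if ∃ c : T, ‖pt δ c.1 - y‖ ≤ r + δ * d ∧ Ev δ (ρ * s) y o c
          then wt q o else 0 := by
  set v := volume.real {x : EuclideanSpace ℝ (Fin d) | ix δ x = 0} with hv
  set u := volume.real (ball (0 : EuclideanSpace ℝ (Fin d)) 1) with hu
  have u0 : 0 < u := ENNReal.toReal_pos (measure_ball_pos _ _ one_pos).ne' measure_ball_lt_top.ne
  have vb : ∀ (z : EuclideanSpace ℝ (Fin d)) (R : ℝ), 0 ≤ R →
      volume.real (closedBall z R) = R ^ d * u := fun z R hR => by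
    rw [Measure.addHaar_real_closedBall _ _ hR, finrank_euclideanSpace, Fintype.card_fin]
  have R0 : 0 < ρ * s + δ * d := by positivity
  have v0 : 0 < v := by
    have := le_count hδ (fin_near hδ (0 : EuclideanSpace ℝ (Fin d)) (1 + δ * d)).toFinset
      (z := 0) (R := 1) fun c hc => (Set.Finite.mem_toFinset _).2 hc
    rw [vb _ _ zero_le_one, one_pow, one_mul] at this
    exact pos_of_mul_pos_left (by rw [mul_comm]; exact u0.trans_le this) (Nat.cast_nonneg _)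
  have v1 : v ≤ (ρ * s + δ * d) ^ d * u := by
    have := count_le hδ {(0 : Fin d → ℤ)} (z := pt δ 0) (R := ρ * s) fun c hc => by
      rw [mem_singleton.1 hc, sub_self, norm_zero]
      positivity
    rw [vb _ _ R0.le] at this
    simpa using this
  set X := (ρ * s + δ * d) ^ d * u with hX
  have X0 : 0 < X := v0.trans_le v1
  have q0 : 0 ≤ v / (2 * X) := by positivity
  have q1 : v / (2 * X) ≤ 1 / 2 := by
    rw [div_le_div_iff₀ (by positivity) two_pos]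
    linarith
  refine ⟨v / (2 * X), q0, by linarith, fun y hy => ?_⟩
  set S : Finset T := univ.filter fun c => ‖pt δ c.1 - y‖ ≤ r + δ * d with hS
  have s1 : r ^ d * u ≤ S.card * v := by
    have := le_count hδ (S.map (Function.Embedding.subtype _)) (z := y) (R := r) fun c hc =>
      mem_map.2 ⟨⟨c, hy c hc⟩, mem_filter.2 ⟨mem_univ _, hc⟩, rfl⟩
    rwa [vb _ _ r0.le, card_map] at this
  have s2 : ∀ c : T, v / (2 * X) * (1 / 2) ≤
      ∑ o : T → Bool, if Ev δ (ρ * s) y o c then wt (v / (2 * X)) o else 0 := fun c => by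
    set B : Finset T := univ.filter fun c' => c' ≠ c ∧
      ‖pt δ c'.1 - (pt δ c.1 + (3 / 2 : ℝ) • (y - pt δ c.1))‖ ≤ ρ * s with hB
    have b1 : B.card * v ≤ X := by
      have := count_le hδ (B.map (Function.Embedding.subtype _))
        (z := pt δ c.1 + (3 / 2 : ℝ) • (y - pt δ c.1)) (R := ρ * s) fun c' hc => by
          obtain ⟨e, he, rfl⟩ := mem_map.1 hc
          exact (mem_filter.1 he).2.2
      rwa [vb _ _ R0.le, card_map] at this
    have b2 := bern (v / (2 * X)) c B (by simp [hB])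
    have b3 : ∀ o : T → Bool, Ev δ (ρ * s) y o c ↔ o c = true ∧ ∀ b ∈ B, o b = false :=
      fun o => by simp [Ev, hB]
    have b4 := one_add_mul_le_pow (a := -(v / (2 * X))) (by linarith) B.card
    have b5 : B.card * (v / (2 * X)) ≤ 1 / 2 := by
      rw [← mul_div_assoc, div_le_div_iff₀ (by positivity) two_pos]
      linarith
    simp only [b3]
    refine le_trans ?_ (le_of_eq (Eq.trans b2.symm (by congr)))
    refine mul_le_mul_of_nonneg_left ?_ q0
    rw [sub_eq_add_neg]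
    linarith
  calc (r / (ρ * s + δ * d)) ^ d / 4 = r ^ d * u / (4 * X) := by
        rw [hX, div_pow]
        field_simp
    _ ≤ S.card * v / (4 * X) := div_le_div_of_nonneg_right s1 (by positivity)
    _ = ∑ _c ∈ S, v / (2 * X) * (1 / 2) := by
        rw [sum_const, nsmul_eq_mul]
        field_simp
        ring
    _ ≤ ∑ c ∈ S, ∑ o : T → Bool, if Ev δ (ρ * s) y o c then wt (v / (2 * X)) o else 0 :=
        sum_le_sum fun c _ => s2 c
    _ ≤ _ := by
        rw [sum_comm]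
        refine sum_le_sum fun o _ => ?_
        split_ifs with h
        · obtain ⟨c, h1, h2⟩ := h
          rw [sum_eq_single c, if_pos h2]
          · intro c' hc' hne
            refine if_neg fun h3 => ?_
            have := ev_sep hs hρ ρ0 h3 h2 ((mem_filter.1 hc').2.trans hr) (h1.trans hr) hne
            rw [sub_self, norm_zero] at this
            linarith
          · exact fun hn => absurd (show c ∈ S from mem_filter.2 ⟨mem_univ c, h1⟩) hn
        · exact le_of_eq (sum_eq_zero fun c hc => if_neg fun h3 => h ⟨c, (mem_filter.1 hc).2, h3⟩)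

end Pool.Agent.MP_66cee2_co.H1U
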