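import Mathlib

/-
Finite averaging lemmas and lattice cells.
-/

namespace Pool.Agent.MP_66cee2_co.H1U

open MeasureTheory Metric Finset

theorem greedy {G Ω : Type} [Fintype G] [DecidableEq G] [Fintype Ω] (w : Ω → ℝ)
    (hw : ∀ o, 0 ≤ w o) (h1 : ∑ o, w o = 1) (A : Ω → Finset G) {p : ℝ} (hp1 : p ≤ 1)
    (hA : ∀ g, p ≤ ∑ o, if g ∈ A o then w o else 0) (N : ℕ) :
    ∃ (f : Fin N → Ω) (U : Finset G), (U.card : ℝ) ≤ (1 - p) ^ N * Fintype.card G ∧
      ∀ g, g ∉ U → ∃ i, g ∈ A (f i) := by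
  induction N with
  | zero => exact ⟨Fin.elim0, univ, by simp, fun g hg => absurd (mem_univ g) hg⟩
  | succ N ih =>
    obtain ⟨f, U, hU, hc⟩ := ih
    have e1 : ∑ o, w o * ((U \ A o).card : ℝ) ≤ ∑ o, w o * ((1 - p) * U.card) := by
      have a1 : ∀ o, w o * ((U \ A o).card : ℝ) =
          ∑ g ∈ U, (w o - if g ∈ A o then w o else 0) := fun o => by
        rw [sdiff_eq_filter, card_filter, Nat.cast_sum, mul_sum]
        exact sum_congr rfl fun g _ => by by_cases h : g ∈ A o <;> simp [h]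
      simp only [a1]
      rw [sum_comm, ← sum_mul, h1, one_mul, mul_comm, ← nsmul_eq_mul, ← sum_const]
      refine sum_le_sum fun g _ => ?_
      rw [sum_sub_distrib, h1]
      linarith [hA g]
    have e2 : ∃ o, ((U \ A o).card : ℝ) ≤ (1 - p) * U.card := by
      by_contra hn
      push Not at hn
      obtain ⟨o, ho⟩ : ∃ o, 0 < w o := by
        by_contra h0
        push Not at h0
        have : ∑ o, w o ≤ 0 := sum_nonpos fun o _ => h0 o
        linarith
      exact absurd e1 (not_le.2 (sum_lt_sum (fun o _ => mul_le_mul_of_nonneg_left (hn o).le (hw o))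
        ⟨o, mem_univ o, mul_lt_mul_of_pos_left (hn o) ho⟩))
    obtain ⟨o, ho⟩ := e2
    refine ⟨Fin.cons o f, U \ A o, ho.trans ?_, fun g hg => ?_⟩
    · rw [pow_succ', mul_assoc]
      exact mul_le_mul_of_nonneg_left hU (by linarith)
    · by_cases h : g ∈ A o
      · exact ⟨0, h⟩
      · obtain ⟨i, hi⟩ := hc g fun hu => hg (mem_sdiff.2 ⟨hu, h⟩)
        exact ⟨i.succ, hi⟩

/-- the weight of a random subset. -/
noncomputable def wt {G : Type} [Fintype G] (q : ℝ) (o : G → Bool) : ℝ :=
  ∏ g, if o g then q else 1 - q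

theorem wt_nonneg {G : Type} [Fintype G] {q : ℝ} (h0 : 0 ≤ q) (h1 : q ≤ 1) (o : G → Bool) :
    0 ≤ wt q o := prod_nonneg fun g _ => by split_ifs <;> linarith

theorem wt_sum {G : Type} [Fintype G] [DecidableEq G] (q : ℝ) : ∑ o : G → Bool, wt q o = 1 := by
  have := (Fintype.prod_sum fun (_ : G) (b : Bool) => if b then q else 1 - q).symm
  simpa [wt] using this

theorem bern {G : Type} [Fintype G] [DecidableEq G] (q : ℝ) (c : G) (B : Finset G) (hc : c ∉ B) :
    ∑ o : G → Bool, (if o c = true ∧ ∀ b ∈ B, o b = false then wt q o else 0) =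
      q * (1 - q) ^ B.card := by
  have h := (Fintype.prod_sum fun (g : G) (b : Bool) => (if b then q else 1 - q) *
    (if g = c then (if b then 1 else 0) else if g ∈ B then (if b then 0 else 1) else 1)).symm
  have e1 : ∀ o : G → Bool, ∏ g, (if o g then q else 1 - q) *
      (if g = c then (if o g then 1 else 0) else if g ∈ B then (if o g then 0 else 1) else 1) =
      if o c = true ∧ ∀ b ∈ B, o b = false then wt q o else 0 := fun o => by
    split_ifs with h
    · refine prod_congr rfl fun g _ => ?_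
      by_cases h1 : g = c
      · simp [h1, h.1]
      · by_cases h2 : g ∈ B
        · simp [h1, h2, h.2 g h2]
        · simp [h1, h2]
    · by_cases h1 : o c = true
      · have h2 : ∃ b ∈ B, o b = true := by
          by_contra h3
          exact h ⟨h1, fun b hb => by simpa using fun h4 => h3 ⟨b, hb, h4⟩⟩
        obtain ⟨b, hb, h3⟩ := h2
        have h4 : b ≠ c := fun e => hc (e ▸ hb)
        exact prod_eq_zero (mem_univ b) (by simp [h4, hb, h3])
      · exact prod_eq_zero (mem_univ c) (by simp [h1])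
  simp only [e1] at h
  rw [h]
  have e2 : ∀ g : G, ∑ b : Bool, (if b then q else 1 - q) *
      (if g = c then (if b then 1 else 0) else if g ∈ B then (if b then 0 else 1) else 1) =
      (if g = c then q else 1) * if g ∈ B then 1 - q else 1 := fun g => by
    by_cases h1 : g = c
    · simp [h1, hc]
    · by_cases h2 : g ∈ B <;> simp [h1, h2]
  simp only [e2]
  rw [prod_mul_distrib, prod_ite_eq' univ c fun _ => q, prod_ite_mem univ B fun _ => 1 - q]
  simp

variable {d : ℕ}

/-- the lattice point. -/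
noncomputable def pt (δ : ℝ) (c : Fin d → ℤ) : EuclideanSpace ℝ (Fin d) :=
  WithLp.toLp 2 fun i => δ * c i

/-- the index of the cell. -/
noncomputable def ix (δ : ℝ) (x : EuclideanSpace ℝ (Fin d)) : Fin d → ℤ := fun i => ⌊x i / δ⌋

theorem near {δ : ℝ} (hδ : 0 < δ) (x : EuclideanSpace ℝ (Fin d)) :
    ‖x - pt δ (ix δ x)‖ ≤ δ * d := by
  have h : ‖x - pt δ (ix δ x)‖ ^ 2 ≤ (δ * d) ^ 2 := by
    rw [EuclideanSpace.real_norm_sq_eq]
    have e : ∀ i, (x - pt δ (ix δ x)) i ^ 2 ≤ δ ^ 2 := fun i => by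
      have a1 := Int.floor_le (x i / δ)
      have a2 := Int.lt_floor_add_one (x i / δ)
      rw [le_div_iff₀ hδ] at a1
      rw [div_lt_iff₀ hδ] at a2
      have a3 : (x - pt δ (ix δ x)) i = x i - δ * ⌊x i / δ⌋ := rfl
      rw [a3]
      nlinarith
    refine (sum_le_sum fun i _ => e i).trans ?_
    rw [sum_const, card_univ, Fintype.card_fin, nsmul_eq_mul]
    have : (d : ℝ) ≤ d ^ 2 := by exact_mod_cast Nat.le_self_pow two_ne_zero d
    nlinarith [sq_nonneg δ]
  exact (abs_le_of_sq_le_sq' h (by positivity)).2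

theorem cell_ms (δ : ℝ) (c : Fin d → ℤ) : MeasurableSet {x | ix δ x = c} := by
  have : Measurable (ix δ : EuclideanSpace ℝ (Fin d) → Fin d → ℤ) := by
    refine measurable_pi_lambda _ fun i => Int.measurable_floor.comp ?_
    fun_prop
  exact this (measurableSet_singleton c)

theorem cell_vol {δ : ℝ} (hδ : 0 < δ) (c : Fin d → ℤ) :
    volume {x | ix δ x = c} = volume {x : EuclideanSpace ℝ (Fin d) | ix δ x = 0} := by
  rw [← measure_preimage_add_right volume (pt δ c) {x | ix δ x = c}]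
  congr 1
  ext x
  have e : ∀ i, ix δ (x + pt δ c) i = ix δ x i + c i := fun i => by
    have : (x + pt δ c) i / δ = x i / δ + c i := by
      have a : (x + pt δ c) i = x i + δ * c i := rfl
      rw [a]
      field_simp
    simp only [ix, this, Int.floor_add_intCast]
  simp only [Set.mem_preimage, Set.mem_ofPred_eq, funext_iff, e, Pi.zero_apply, add_eq_right]

theorem cell_sub {δ : ℝ} (hδ : 0 < δ) {c : Fin d → ℤ} {z : EuclideanSpace ℝ (Fin d)} {R : ℝ}
    (h : ‖pt δ c - z‖ ≤ R) : {x | ix δ x = c} ⊆ closedBall z (R + δ * d) := by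
  intro x hx
  have h1 := near hδ x
  rw [show ix δ x = c from hx] at h1
  rw [mem_closedBall, dist_eq_norm]
  have := norm_add_le (x - pt δ c) (pt δ c - z)
  rw [sub_add_sub_cancel] at this
  linarith

theorem count_le {δ : ℝ} (hδ : 0 < δ) (S : Finset (Fin d → ℤ)) {z : EuclideanSpace ℝ (Fin d)}
    {R : ℝ} (h : ∀ c ∈ S, ‖pt δ c - z‖ ≤ R) :
    S.card * volume.real {x : EuclideanSpace ℝ (Fin d) | ix δ x = 0} ≤
      volume.real (closedBall z (R + δ * d)) := by
  have f : ∀ c ∈ S, volume {x | ix δ x = c} ≠ ⊤ := fun c hc =>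
    ((measure_mono (cell_sub hδ (h c hc))).trans_lt measure_closedBall_lt_top).ne
  have e := measureReal_biUnion_finset (μ := volume) (s := S) (f := fun c => {x | ix δ x = c})
    (fun a _ b _ hab => Set.disjoint_left.2 fun x ha hb => hab (Eq.trans (Eq.symm ha) hb))
    (fun c _ => cell_ms δ c) f
  have e2 : ∑ c ∈ S, volume.real {x | ix δ x = c} =
      S.card * volume.real {x : EuclideanSpace ℝ (Fin d) | ix δ x = 0} := by
    simp only [Measure.real, cell_vol hδ, sum_const, nsmul_eq_mul]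
  rw [← e2, ← e]
  exact measureReal_mono (Set.iUnion₂_subset fun c hc => cell_sub hδ (h c hc))
    measure_closedBall_lt_top.ne

theorem fin_near {δ : ℝ} (hδ : 0 < δ) (z : EuclideanSpace ℝ (Fin d)) (R : ℝ) :
    {c : Fin d → ℤ | ‖pt δ c - z‖ ≤ R}.Finite := by
  refine (Set.Finite.pi' fun i => Set.finite_Icc ⌊(z i - R) / δ⌋ ⌈(z i + R) / δ⌉).subset ?_
  intro c hc i
  have h1 : |δ * c i - z i| ≤ R := by
    have := (PiLp.norm_apply_le (pt δ c - z) i).trans hc
    rwa [Real.norm_eq_abs] at this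
  obtain ⟨h2, h3⟩ := abs_le.1 h1
  constructor
  · refine Int.floor_le_iff.2 ?_
    rw [div_lt_iff₀ hδ]
    nlinarith
  · refine Int.le_ceil_iff.2 ?_
    rw [lt_div_iff₀ hδ]
    nlinarith

theorem le_count {δ : ℝ} (hδ : 0 < δ) (S : Finset (Fin d → ℤ)) {z : EuclideanSpace ℝ (Fin d)}
    {R : ℝ} (h : ∀ c, ‖pt δ c - z‖ ≤ R + δ * d → c ∈ S) :
    volume.real (closedBall z R) ≤
      S.card * volume.real {x : EuclideanSpace ℝ (Fin d) | ix δ x = 0} := by
  have f : ∀ c, volume {x | ix δ x = c} ≠ ⊤ := fun c : Fin d → ℤ =>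
    ((measure_mono (cell_sub hδ (z := pt δ c) le_rfl)).trans_lt measure_closedBall_lt_top).ne
  have e2 : ∑ c ∈ S, volume.real {x | ix δ x = c} =
      S.card * volume.real {x : EuclideanSpace ℝ (Fin d) | ix δ x = 0} := by
    simp only [Measure.real, cell_vol hδ, sum_const, nsmul_eq_mul]
  rw [← e2]
  refine le_trans (measureReal_mono ?_ ?_) (measureReal_biUnion_finset_le S _)
  · intro x hx
    rw [mem_closedBall, dist_eq_norm] at hx
    refine Set.mem_iUnion₂.2 ⟨ix δ x, h _ ?_, rfl⟩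
    have h1 := near hδ x
    have h2 := norm_sub_le (x - z) (x - pt δ (ix δ x))
    rw [sub_sub_sub_cancel_left] at h2
    linarith
  · exact ((measure_biUnion_finset_le S _).trans_lt
      (ENNReal.sum_lt_top.2 fun c _ => (f c).lt_top)).ne

end Pool.Agent.MP_66cee2_co.H1U
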