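import Pool.Agent.MP_66cee2_co.H1U.Col
import Pool.Agent.MP_66cee2_co.H12.Shift

/-
Maps that preserve unit distances and are not isometries.
-/

namespace Pool.Agent.MP_66cee2_co.H1U

open MeasureTheory Metric Finset Filter Topology

theorem col {d K N : ℕ} (hd : 1 ≤ d) (hK : 10 ≤ K) {ρ : ℝ} (hρ : 27 / 16 ≤ ρ ^ 2) (ρ0 : 0 < ρ)
    (hN : (1 - ((1 / 2 - 3 / K) / (ρ * (1 + 2 / K) + 1 / K)) ^ d / 4) ^ (N + 1) *
      ((2 * K * d ^ 2 : ℕ) : ℝ) ^ d < 1) :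
    ∃ c : EuclideanSpace ℝ (Fin d) → Fin (N + 1), ∀ x y : EuclideanSpace ℝ (Fin d),
      (∀ i, x i ∈ Set.Ico (0 : ℝ) (2 * d)) → (∀ i, y i ∈ Set.Ico (0 : ℝ) (2 * d)) →
      ‖x - y‖ = 1 → c x ≠ c y := by
  classical
  have K0 : (10 : ℝ) ≤ K := by exact_mod_cast hK
  have d0 : (1 : ℝ) ≤ d := by exact_mod_cast hd
  set η : ℝ := 1 / K with hη
  have η0 : 0 < η := by positivity
  have η1 : η ≤ 1 / 10 := one_div_le_one_div_of_le (by norm_num) K0
  have e2 : (2 : ℝ) / K = 2 * η := by rw [hη]; ring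
  have e3 : (3 : ℝ) / K = 3 * η := by rw [hη]; ring
  rw [e2, e3] at hN
  set δ : ℝ := 1 / (K * d) with hδ
  have δ0 : 0 < δ := by positivity
  have δd : δ * d = η := by
    rw [hδ, hη]
    field_simp
  set G := Fin d → Fin (2 * K * d ^ 2)
  set ι : G → Fin d → ℤ := fun g i => ((g i : ℕ) : ℤ) with hι
  set T : Finset (Fin d → ℤ) := univ.biUnion fun g : G =>
    (fin_near δ0 (pt δ (ι g)) (1 / 2 - 3 * η + δ * d)).toFinset with hT
  obtain ⟨q, q0, q1, hq⟩ := prob (T := T) (s := 1 + 2 * η) (r := 1 / 2 - 3 * η) δ0 (by linarith)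
    hρ ρ0 (by linarith) (by rw [δd]; linarith)
  have ρ1 : 1 ≤ ρ := by nlinarith
  have p1 : ((1 / 2 - 3 * η) / (ρ * (1 + 2 * η) + η)) ^ d ≤ 1 :=
    pow_le_one₀ (div_nonneg (by linarith) (by positivity))
      ((div_le_one (by positivity)).2 (by nlinarith))
  obtain ⟨f, U, hU, hc⟩ := greedy (G := G) (wt q) (wt_nonneg q0 q1) (wt_sum q)
    (fun o => univ.filter fun g => ∃ c : T, ‖pt δ c.1 - pt δ (ι g)‖ ≤ 1 / 2 - 3 * η + δ * d ∧
      Ev δ (ρ * (1 + 2 * η)) (pt δ (ι g)) o c)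
    (p := ((1 / 2 - 3 * η) / (ρ * (1 + 2 * η) + η)) ^ d / 4) (by linarith) (fun g => by
      have := hq (pt δ (ι g)) fun c h =>
        mem_biUnion.2 ⟨g, mem_univ _, (Set.Finite.mem_toFinset _).2 h⟩
      rw [δd] at this
      simpa only [mem_filter, mem_univ, true_and, δd] using this) (N + 1)
  have U0 : U = ∅ := by
    rw [← card_eq_zero, ← Nat.lt_one_iff]
    have : (Fintype.card G : ℝ) = ((2 * K * d ^ 2 : ℕ) : ℝ) ^ d := by simp [G]
    rw [this] at hU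
    exact_mod_cast hU.trans_lt hN
  choose i hi using fun g => hc g (by simp [U0])
  have rep : ∀ x : EuclideanSpace ℝ (Fin d), (∀ j, x j ∈ Set.Ico (0 : ℝ) (2 * d)) →
      ∃ g : G, ι g = ix δ x := fun x hx => by
    have a0 : ∀ j, 0 ≤ ix δ x j := fun j => Int.floor_nonneg.2 (div_nonneg (hx j).1 δ0.le)
    have a1 : ∀ j, ix δ x j < ((2 * K * d ^ 2 : ℕ) : ℤ) := fun j => by
      refine Int.floor_lt.2 ?_
      rw [div_lt_iff₀ δ0]
      refine (hx j).2.trans_eq ?_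
      rw [hδ]
      push_cast
      field_simp
    exact ⟨fun j => ⟨(ix δ x j).toNat, by have := a0 j; have := a1 j; omega⟩,
      funext fun j => Int.toNat_of_nonneg (a0 j)⟩
  refine ⟨fun x => if h : ∃ g : G, ι g = ix δ x then i h.choose else 0, fun x y hx hy e e' => ?_⟩
  simp only [dif_pos (rep x hx), dif_pos (rep y hy)] at e'
  obtain ⟨c, c1, c2⟩ := (mem_filter.1 (hi (rep x hx).choose)).2
  obtain ⟨c', c3, c4⟩ := (mem_filter.1 (hi (rep y hy).choose)).2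
  rw [(rep x hx).choose_spec] at c1 c2
  rw [(rep y hy).choose_spec] at c3 c4
  rw [e'] at c2
  have n1 := near δ0 x
  have n2 := near δ0 y
  rw [δd] at c1 c3 n1 n2
  set X := pt δ (ix δ x)
  set Y := pt δ (ix δ y)
  by_cases hcc : c = c'
  · subst hcc
    have t1 : x - y = (x - X) - (pt δ c.1 - X) + ((pt δ c.1 - Y) - (y - Y)) := by abel
    have t2 := norm_add_le ((x - X) - (pt δ c.1 - X)) ((pt δ c.1 - Y) - (y - Y))
    rw [← t1] at t2
    linarith [norm_sub_le (x - X) (pt δ c.1 - X), norm_sub_le (pt δ c.1 - Y) (y - Y)]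
  · have t0 := ev_sep (by linarith) hρ ρ0 c2 c4 (by linarith) (by linarith) hcc
    have t1 : X - Y = (x - y) - (x - X) + (y - Y) := by abel
    have t2 := norm_add_le ((x - y) - (x - X)) (y - Y)
    rw [← t1] at t2
    linarith [norm_sub_le (x - y) (x - X)]

theorem upper (c : ℝ) (hc : 3 * √3 / 2 < c) : ∃ d₀ : ℕ, ∀ d n : ℕ, d₀ ≤ d → c ^ d ≤ n →
    ∃ f : EuclideanSpace ℝ (Fin d) → EuclideanSpace ℝ (Fin n),
      (∀ x y, ‖x - y‖ = 1 → ‖f x - f y‖ = 1) ∧ ∃ x y, ‖f x - f y‖ ≠ ‖x - y‖ := by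
  set ρ : ℝ := 3 * √3 / 4 with hρ
  have ρ0 : 0 < ρ := by positivity
  have ρ2 : 27 / 16 ≤ ρ ^ 2 := by
    rw [hρ, div_pow, mul_pow, Real.sq_sqrt (by norm_num)]
    norm_num
  have c0 : 0 < c := by linarith
  obtain ⟨K, hK, k1⟩ : ∃ K : ℕ, 10 ≤ K ∧ (2 * ρ + 1 + 3 * c) / (c / 2 - ρ) < K := by
    obtain ⟨K, hK⟩ := exists_nat_gt ((2 * ρ + 1 + 3 * c) / (c / 2 - ρ))
    exact ⟨max K 10, le_max_right _ _, hK.trans_le (by exact_mod_cast le_max_left _ _)⟩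
  have K0 : (10 : ℝ) ≤ K := by exact_mod_cast hK
  have a0 : (0 : ℝ) < 1 / 2 - 3 / K := by
    have : (3 : ℝ) / K ≤ 3 / 10 := div_le_div_of_nonneg_left (by norm_num) (by norm_num) K0
    linarith
  have b0 : (0 : ℝ) < ρ * (1 + 2 / K) + 1 / K := by positivity
  set κ : ℝ := (ρ * (1 + 2 / K) + 1 / K) / (1 / 2 - 3 / K) with hκ
  have κ0 : 0 < κ := div_pos b0 a0
  have κ1 : 1 ≤ κ := by
    rw [hκ, le_div_iff₀ a0]
    have : (0 : ℝ) < ρ * (2 / K) + 1 / K + 3 / K := by positivity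
    nlinarith
  have κc : κ < c := by
    rw [hκ, div_lt_iff₀ a0]
    rw [div_lt_iff₀ (by linarith)] at k1
    have : (2 * ρ + 1 + 3 * c) / K < c / 2 - ρ := by
      rw [div_lt_iff₀ (by linarith)]
      linarith
    have e : (2 * ρ + 1 + 3 * c) / K = ρ * (2 / K) + 1 / K + c * (3 / K) := by ring
    nlinarith
  have t := tendsto_pow_const_mul_const_pow_of_abs_lt_one 4 (r := κ / c)
    (by rw [abs_of_pos (div_pos κ0 c0), div_lt_one c0]; exact κc)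
  obtain ⟨d₀, h⟩ := eventually_atTop.1
    (t.eventually (gt_mem_nhds (show (0 : ℝ) < 1 / (40 * K) by positivity)))
  refine ⟨max d₀ 1, fun d n hd hn => ?_⟩
  have d1 : 1 ≤ d := (le_max_right _ _).trans hd
  have d0 : (1 : ℝ) ≤ d := by exact_mod_cast d1
  have h1 := h d ((le_max_left _ _).trans hd)
  have kd : 1 ≤ κ ^ d := one_le_pow₀ κ1
  set N := ⌈8 * K * (d : ℝ) ^ 3 * κ ^ d⌉₊ with hN
  have N1 : 8 * K * (d : ℝ) ^ 3 * κ ^ d ≤ N := Nat.le_ceil _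
  have N2 : (N : ℝ) < 8 * K * (d : ℝ) ^ 3 * κ ^ d + 1 := Nat.ceil_lt_add_one (by positivity)
  have d3 : 1 ≤ (d : ℝ) ^ 3 := one_le_pow₀ d0
  have big : 10 ≤ K * (d : ℝ) ^ 3 * κ ^ d := by
    nlinarith [mul_le_mul d3 kd zero_le_one (by linarith)]
  obtain ⟨g, hg⟩ := col (N := N) d1 hK ρ2 ρ0 (by
    have e : ((1 / 2 - 3 / K) / (ρ * (1 + 2 / K) + 1 / K)) ^ d = (κ ^ d)⁻¹ := by
      rw [hκ, ← inv_pow, inv_div]
    rw [e]
    have p0 : 0 < (κ ^ d)⁻¹ := by positivity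
    have p1 : (κ ^ d)⁻¹ ≤ 1 := inv_le_one_of_one_le₀ kd
    have x1 : (1 - (κ ^ d)⁻¹ / 4) ^ (N + 1) ≤ Real.exp (-((κ ^ d)⁻¹ / 4)) ^ (N + 1) :=
      pow_le_pow_left₀ (by linarith) (by linarith [Real.add_one_le_exp (-((κ ^ d)⁻¹ / 4))]) _
    have x2 : ((2 * K * d ^ 2 : ℕ) : ℝ) ^ d ≤ Real.exp (2 * K * d ^ 2) ^ d :=
      pow_le_pow_left₀ (by positivity) (by
        push_cast
        linarith [Real.add_one_le_exp (2 * K * (d : ℝ) ^ 2)]) _
    refine (mul_le_mul x1 x2 (by positivity) (by positivity)).trans_lt ?_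
    rw [← Real.exp_nat_mul, ← Real.exp_nat_mul, ← Real.exp_add, Real.exp_lt_one_iff]
    have x3 : 8 * K * (d : ℝ) ^ 3 ≤ N * (κ ^ d)⁻¹ := by
      rw [← div_eq_mul_inv, le_div_iff₀ (by positivity)]
      exact N1
    push_cast
    nlinarith)
  refine H12S.map_of_cube d1 ?_ g hg
  have y1 : ((d : ℝ) + 1) * (N + 1) ≤ 2 * d * (10 * (K * (d : ℝ) ^ 3 * κ ^ d)) :=
    mul_le_mul (by linarith) (by linarith) (by positivity) (by positivity)
  rw [div_pow, ← mul_div_assoc, div_lt_div_iff₀ (by positivity) (by positivity)] at h1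
  have y2 : ((d : ℝ) + 1) * (N + 1) ≤ n := by
    refine y1.trans (le_trans ?_ hn)
    have : 0 ≤ (d : ℝ) ^ 4 * κ ^ d * K := by positivity
    nlinarith
  exact_mod_cast y2

end Pool.Agent.MP_66cee2_co.H1U
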